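import Pool.Agent.H3W0.B

/-!
# MP_1e94b9_an: weak*-exposed points of weak*-compact convex sets

If a separable real or complex Banach space `X` contains no isomorphic copy of the real space `ℓ¹`,
then every weak*-compact convex subset of `X*` (not only the dual unit ball) is the norm-closed
convex hull of its weak*-exposed points.
-/

set_option autoImplicit false

universe u

namespace Pool.Agent.Results.MP_1e94b9_an.WeakStarCompactSets

open Set Metric H3W0

/-- The weak*-exposed points of the set `K` of continuous functionals: those `f ∈ K` for which some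
`x ∈ X` satisfies `Re g x < Re f x` for all `g ∈ K`, `g ≠ f`. -/
def weakStarExposed {𝕜 : Type*} [RCLike 𝕜] {X : Type u} [NormedAddCommGroup X] [NormedSpace 𝕜 X]
    (K : Set (X →L[𝕜] 𝕜)) : Set (X →L[𝕜] 𝕜) :=
  {f | f ∈ K ∧ ∃ x : X, ∀ g ∈ K, g ≠ f → RCLike.re (g x) < RCLike.re (f x)}

/-- The real space `X` contains an isomorphic copy of the real space `ℓ¹`. -/
def ContainsL1 (X : Type u) [NormedAddCommGroup X] [NormedSpace ℝ X] : Prop :=
  ∃ T : (lp (fun _ : ℕ => ℝ) 1) →L[ℝ] X, ∃ c : ℝ, 0 < c ∧ ∀ a, c * ‖a‖ ≤ ‖T a‖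

theorem real_case (X : Type u) [NormedAddCommGroup X] [NormedSpace ℝ X] [CompleteSpace X]
    [TopologicalSpace.SeparableSpace X] (hX : ¬ ContainsL1 X) (K : Set (X →L[ℝ] ℝ))
    (hconv : Convex ℝ K) (hK : IsCompact {f : WeakDual ℝ X | WeakDual.toStrongDual f ∈ K}) :
    closure (convexHull ℝ (weakStarExposed K)) = K := by
  have hK' : IsCompact (X := WeakDual ℝ X) K := hK
  rcases K.eq_empty_or_nonempty with rfl | hne
  · have : weakStarExposed (∅ : Set (X →L[ℝ] ℝ)) = ∅ := by
      ext f
      simp [weakStarExposed]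
    rw [this, convexHull_empty, closure_empty]
  have hcl : IsClosed K := by
    have := hK'.isClosed.preimage (NormedSpace.Dual.toWeakDual_continuous (𝕜 := ℝ) (E := X))
    exact this
  -- boundedness
  have hbd : ∃ M : ℝ, 0 < M ∧ ∀ d ∈ K, ‖d‖ ≤ M := by
    have h1 : ∀ x : X, ∃ C, ∀ d : K, ‖(d : X →L[ℝ] ℝ) x‖ ≤ C := by
      intro x
      obtain ⟨C, hC⟩ := (hK'.image (WeakDual.eval_continuous x)).isBounded.exists_norm_le
      exact ⟨C, fun d => hC _ ⟨d.1, d.2, rfl⟩⟩
    obtain ⟨C, hC⟩ := banach_steinhaus h1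
    exact ⟨max C 1, lt_of_lt_of_le one_pos (le_max_right _ _),
      fun d hd => (hC ⟨d, hd⟩).trans (le_max_left _ _)⟩
  obtain ⟨M, hM, hbd⟩ := hbd
  -- the support function
  have hatt : ∀ x : X, ∃ d ∈ K, ∀ e ∈ K, e x ≤ d x := fun x => by
    obtain ⟨d, hd, h⟩ := hK'.exists_isMaxOn hne (WeakDual.eval_continuous x).continuousOn
    exact ⟨d, hd, fun e he => h he⟩
  choose m m1 m2 using hatt
  have S : Supp K (fun x => m x x) M :=
    { pos := hM
      mem := fun d hd x => m2 x d hd
      att := fun x => ⟨m x, m1 x, rfl⟩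
      bd := hbd }
  refine (closure_minimal (convexHull_min (fun f hf => hf.1) hconv) hcl).antisymm
    fun f hf => by_contra fun hc => ?_
  obtain ⟨F, u, h1, h2⟩ := geometric_hahn_banach_closed_point (convex_convexHull ℝ _).closure
    isClosed_closure hc
  obtain ⟨b, b1, b2⟩ := exists_between h2
  obtain ⟨B, h3, h4⟩ := cover hX F hM b1 (E := {d | ∃ y, Sm K (fun x => m x x) y d})
    fun d ⟨y, h⟩ => ⟨hbd d h.1, h1 d (subset_closure (subset_convexHull ℝ _
      ⟨h.1, y, fun g hg hgd => h.exp S g hg hgd⟩))⟩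
  exact b2.not_ge (closure_minimal (convexHull_min (iUnion_subset h4)
    (convex_halfSpace_le F.toLinearMap.isLinear b)) (isClosed_le F.continuous continuous_const)
    (ienv S hconv hK' B (fun y d h => mem_iUnion.1 (h3 ⟨y, h⟩)) hf))

/-- Let `X` be a separable Banach space over `𝕜 = ℝ` or `ℂ` which (as a real space) contains no
isomorphic copy of the real space `ℓ¹`. Then every weak*-compact convex set `K` of continuous
functionals is the norm-closed convex hull of its weak*-exposed points. In particular this holds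
for the dual unit ball. -/
theorem result (𝕜 : Type*) [RCLike 𝕜] (X : Type u) [NormedAddCommGroup X] [NormedSpace 𝕜 X]
    [NormedSpace ℝ X] [IsScalarTower ℝ 𝕜 X] [CompleteSpace X]
    [TopologicalSpace.SeparableSpace X] (hX : ¬ ContainsL1 X) :
    (∀ K : Set (X →L[𝕜] 𝕜), Convex ℝ K →
      IsCompact {f : WeakDual 𝕜 X | WeakDual.toStrongDual f ∈ K} →
        closure (convexHull ℝ (weakStarExposed K)) = K) ∧
    closure (convexHull ℝ (weakStarExposed (closedBall (0 : X →L[𝕜] 𝕜) 1))) =
      closedBall (0 : X →L[𝕜] 𝕜) 1 := by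
  have main : ∀ K : Set (X →L[𝕜] 𝕜), Convex ℝ K →
      IsCompact {f : WeakDual 𝕜 X | WeakDual.toStrongDual f ∈ K} →
        closure (convexHull ℝ (weakStarExposed K)) = K := by
    intro K hconv hK
    let e : StrongDual ℝ X ≃L[ℝ] StrongDual 𝕜 X := StrongDual.extendRCLikeL
    let w : WeakDual ℝ X ≃L[ℝ] WeakDual 𝕜 X := WeakDual.extendRCLikeL
    have hre : ∀ (f : StrongDual ℝ X) (x : X), RCLike.re (e f x) = f x := fun f x =>
      WeakDual.re_extendRCLikeL_apply_apply (𝕜 := 𝕜) (StrongDual.toWeakDual f) x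
    have h1 : Convex ℝ (e ⁻¹' K) := hconv.linear_preimage e.toLinearEquiv.toLinearMap
    have h2 : IsCompact {f : WeakDual ℝ X | WeakDual.toStrongDual f ∈ e ⁻¹' K} := by
      have := w.toHomeomorph.isCompact_preimage.2 hK
      exact this
    have h3 := real_case X hX (e ⁻¹' K) h1 h2
    have h4 : weakStarExposed K = e '' weakStarExposed (e ⁻¹' K) := by
      ext f
      constructor
      · rintro ⟨hf, x, hx⟩
        refine ⟨e.symm f, ⟨by simpa using hf, x, fun g hg hgf => ?_⟩, by simp⟩
        have := hx (e g) hg (fun h => hgf (by rw [← h]; simp))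
        rw [hre] at this
        have h5 := hre (e.symm f) x
        rw [ContinuousLinearEquiv.apply_symm_apply] at h5
        rw [h5] at this
        exact this
      · rintro ⟨g, ⟨hg, x, hx⟩, rfl⟩
        refine ⟨hg, x, fun h hh hne => ?_⟩
        have := hx (e.symm h) (by simpa using hh) (fun h' => hne (by rw [← h']; simp))
        have h5 := hre (e.symm h) x
        rw [ContinuousLinearEquiv.apply_symm_apply] at h5
        rw [hre, h5]
        exact this
    have h5 : e '' convexHull ℝ (weakStarExposed (e ⁻¹' K)) =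
        convexHull ℝ (e '' weakStarExposed (e ⁻¹' K)) :=
      e.toLinearEquiv.toLinearMap.image_convexHull _
    rw [h4, ← h5, ← e.image_closure, h3, image_preimage_eq _ e.surjective]
  refine ⟨main, main _ (convex_closedBall _ _) (WeakDual.isCompact_closedBall 0 1)⟩

end Pool.Agent.Results.MP_1e94b9_an.WeakStarCompactSets
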